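import Pool.Agent.H84.B.Targets

/-!
# Module K1 for MP_02e9fb_an : the compact operator `K`
-/

open scoped ComplexConjugate InnerProductSpace
open Filter Topology

namespace Pool.Agent.H37.B

open Pool.Agent.H84.B

section Rep

variable {Λ : Type} [CommRing Λ] {H : Type} [NormedAddCommGroup H] [InnerProductSpace ℂ H]
    [CompleteSpace H]

lemma PH_mem (R : Rep Λ H) (B : Finset ℕ) (z : H) : R.PH B z ∈ R.HB B :=
  (R.HB B).starProjection_apply_mem z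

lemma PR_mem (R : Rep Λ H) (B : Finset ℕ) (z : H) : R.PR B z ∈ R.RB B :=
  (R.RB B).starProjection_apply_mem z

lemma PH_eq_self (R : Rep Λ H) (B : Finset ℕ) {z : H} (hz : z ∈ R.HB B) : R.PH B z = z :=
  Submodule.starProjection_eq_self_iff.mpr hz

lemma PR_eq_self (R : Rep Λ H) (B : Finset ℕ) {z : H} (hz : z ∈ R.RB B) : R.PR B z = z :=
  Submodule.starProjection_eq_self_iff.mpr hz

lemma inner_PH (R : Rep Λ H) (B : Finset ℕ) (w z : H) : ⟪R.PH B w, z⟫_ℂ = ⟪w, R.PH B z⟫_ℂ :=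
  Submodule.inner_starProjection_left_eq_right _ w z

lemma inner_PR (R : Rep Λ H) (B : Finset ℕ) (w z : H) : ⟪R.PR B w, z⟫_ℂ = ⟪w, R.PR B z⟫_ℂ :=
  Submodule.inner_starProjection_left_eq_right _ w z

lemma norm_PH_le (R : Rep Λ H) (B : Finset ℕ) (z : H) : ‖R.PH B z‖ ≤ ‖z‖ :=
  Submodule.norm_starProjection_apply_le _ z

end Rep

section KN

variable {H : Type} [NormedAddCommGroup H] [InnerProductSpace ℂ H]

/-- the finite rank operator `z ↦ (1/N) ∑ ⟨v_n, z⟩ v_n` -/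
noncomputable def KN {N : ℕ} (v : Fin N → H) : H →L[ℂ] H :=
  (1 / (N : ℂ)) • ∑ n, (innerSL ℂ (v n)).smulRight (v n)

lemma KN_apply {N : ℕ} (v : Fin N → H) (z : H) :
    KN v z = (1 / (N : ℂ)) • ∑ n, ⟪v n, z⟫_ℂ • v n := by
  simp [KN]

lemma KN_compact {N : ℕ} (v : Fin N → H) : IsCompactOperator (KN v) := by
  have h : ∀ n, (innerSL ℂ (v n)).smulRight (v n) ∈ compactOperator (RingHom.id ℂ) H H := by
    intro n
    have h1 : IsCompactOperator (innerSL ℂ (v n)) :=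
      isCompactOperator_of_locallyCompactSpace_dom _
    have h2 := h1.clm_comp (ContinuousLinearMap.toSpanSingleton ℂ (v n))
    have h3 : (⇑((innerSL ℂ (v n)).smulRight (v n)) : H → H)
        = (ContinuousLinearMap.toSpanSingleton ℂ (v n)) ∘ (innerSL ℂ (v n)) := by
      ext z
      simp
    change IsCompactOperator _
    change IsCompactOperator (⇑((innerSL ℂ (v n)).smulRight (v n)))
    rw [h3]
    exact h2
  have h2 : (∑ n, (innerSL ℂ (v n)).smulRight (v n) : H →L[ℂ] H)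
      ∈ compactOperator (RingHom.id ℂ) H H := Submodule.sum_mem _ fun n _ => h n
  exact (compactOperator (RingHom.id ℂ) H H).smul_mem _ h2

lemma KN_symm {N : ℕ} (v : Fin N → H) (z w : H) : ⟪KN v z, w⟫_ℂ = ⟪z, KN v w⟫_ℂ := by
  rw [KN_apply, KN_apply, inner_smul_left, inner_smul_right, sum_inner, inner_sum]
  congr 1
  · simp
  · refine Finset.sum_congr rfl fun n _ => ?_
    rw [inner_smul_left, inner_smul_right, inner_conj_symm]
    ring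

end KN

section Main

variable {Λ : Type} [CommRing Λ] {A : Type} [CommRing A] [StarRing A] [Algebra ℂ A]
    [StarModule ℂ A] {H : Type} [NormedAddCommGroup H] [InnerProductSpace ℂ H] [CompleteSpace H]
    (S : Sys Λ A H)

/-- supports of the two halves of `bb` -/
lemma bb_parts (hhh : T_hh) (p : ℕ) (β : ℕ → Λ) (m : ℕ) :
    IsCopy (hh p β 0 m) (hh p β 0 m) ∧ IsCopy (hh p β 0 m) (hh p β ((p + 1) * m) m) ∧
      Dsj (hh p β 0 m) (hh p β ((p + 1) * m) m) := by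
  obtain ⟨-, -, -, -, -, hrefl, -, -, -, -, hcopy, -, hsupp, -⟩ := hhh Λ
  refine ⟨hrefl _, hcopy _ _ _ _, ?_⟩
  unfold Dsj
  rw [Finset.disjoint_left]
  intro i hi hi'
  rw [Finsupp.mem_support_iff] at hi hi'
  have h1 := hsupp p β 0 m i hi
  have h2 := hsupp p β ((p + 1) * m) m i hi'
  omega

lemma PR_empty (hBd : T_Bd) (z : H) : S.PR ∅ z = ⟪S.ι 1, z⟫_ℂ • S.ι 1 := by
  obtain ⟨-, -, -, -, -, -, -, -, -, -, -, -, -, -, -, -, -, h1, -⟩ := hBd Λ A H S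
  have hm := PR_mem S.toRep ∅ z
  have hoff : ∀ y : Y Λ, Off y ∅ := fun y => Finset.disjoint_empty_right _
  obtain ⟨c, hc⟩ := S.erg (S.PR ∅ z) (fun y => hm.2 y (hoff y))
    (fun σ => hm.1 σ (by simp))
  have h2 : ⟪S.ι 1, S.PR ∅ z⟫_ℂ = ⟪S.ι 1, z⟫_ℂ := by
    rw [← inner_PR, PR_eq_self _ _ (h1 ∅)]
  rw [hc, inner_smul_right, inner_self_eq_norm_sq_to_K, S.norm_one] at h2
  rw [hc, ← h2]
  simp

/-- the limit of `⟨y, U_{k b_l} x⟩` -/
lemma bb_tendsto (hhh : T_hh) (hbb : T_bblim) (hBd : T_Bd) (p : ℕ) [Fact p.Prime]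
    (ρ : Λ →+* ZMod p) (β : ℕ → Λ) (k : Λ) (φ : ℕ → ℕ) (hβ : Exh ρ β) (hk : IsUnit k)
    (hφ : StrictMono φ) (x y : H) (hx : x ∈ S.HB ∅) (hy : y ∈ S.HB ∅) :
    Tendsto (fun l => ⟪y, S.U (k • bb p β (φ l)) x⟫_ℂ) atTop
      (𝓝 (conj ⟪S.ι 1, y⟫_ℂ * ⟪S.ι 1, x⟫_ℂ)) := by
  rw [Metric.tendsto_atTop]
  intro ε hε
  obtain ⟨M, hM⟩ := hbb Λ H S.toRep p ρ β k ∅ x y (ε / 2) hβ hk hx hy (by positivity)
  refine ⟨M, fun l hl => ?_⟩
  obtain ⟨h1, h2, h3⟩ := bb_parts hhh p β (φ l)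
  have h4 := hM (φ l) (le_trans hl (hφ.id_le l)) (hh p β 0 (φ l)) (hh p β ((p + 1) * φ l) (φ l))
    h1 h2 (Finset.disjoint_empty_right _) (Finset.disjoint_empty_right _) h3
  have h5 : ⟪S.PR ∅ y, S.PR ∅ x⟫_ℂ = conj ⟪S.ι 1, y⟫_ℂ * ⟪S.ι 1, x⟫_ℂ := by
    rw [PR_empty S hBd, PR_empty S hBd, inner_smul_left, inner_smul_right,
      inner_self_eq_norm_sq_to_K, S.norm_one]
    simp
  rw [h5] at h4
  rw [dist_eq_norm]
  have h6 : bb p β (φ l) = hh p β ((p + 1) * φ l) (φ l) - hh p β 0 (φ l) := rfl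
  rw [h6]
  linarith

/-- `‖ι (star w * U z)‖ → ‖w‖ ‖z‖` -/
lemma norm_tendsto (hhh : T_hh) (hbb : T_bblim) (hBd : T_Bd) (p : ℕ) [Fact p.Prime]
    (ρ : Λ →+* ZMod p) (β : ℕ → Λ) (k : Λ) (φ : ℕ → ℕ) (hβ : Exh ρ β) (hk : IsUnit k)
    (hφ : StrictMono φ) (z w : A) (hz : S.ι z ∈ S.HB ∅) (hw : S.ι w ∈ S.HB ∅) :
    Tendsto (fun l => ‖S.ι (star w * S.UA (k • bb p β (φ l)) z)‖) atTop
      (𝓝 (‖S.ι w‖ * ‖S.ι z‖)) := by
  obtain ⟨htr, -, -, -, -, -, -, -, -, -, -, -, -, hmul, hstar, -⟩ := hBd Λ A H S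
  have hself : ∀ a : A, ⟪S.ι 1, S.ι (a * star a)⟫_ℂ = ((‖S.ι a‖ ^ 2 : ℝ) : ℂ) := by
    intro a
    have := htr a a
    rw [mul_comm, Sys.tr] at this
    rw [this, inner_self_eq_norm_sq_to_K]
    simp
  have h1 := bb_tendsto S hhh hbb hBd p ρ β k φ hβ hk hφ (S.ι (z * star z)) (S.ι (w * star w))
    (hmul _ _ _ hz (hstar _ _ hz)) (hmul _ _ _ hw (hstar _ _ hw))
  rw [hself, hself] at h1
  have h2 : ∀ l, ((‖S.ι (star w * S.UA (k • bb p β (φ l)) z)‖ ^ 2 : ℝ) : ℂ)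
      = ⟪S.ι (w * star w), S.U (k • bb p β (φ l)) (S.ι (z * star z))⟫_ℂ := by
    intro l
    set c := S.UA (k • bb p β (φ l)) z with hc
    rw [← S.ι_U, map_mul (S.UA (k • bb p β (φ l))), map_star (S.UA (k • bb p β (φ l))), ← hc]
    have h3 := S.inner_mul (star w) c (star w * c)
    rw [inner_self_eq_norm_sq_to_K] at h3
    have h4 := htr (w * star w) (c * star c)
    rw [← h4]
    have h5 := htr c (star (star w) * (star w * c))
    rw [← h5] at h3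
    push_cast
    have h6 : star (w * star w) * (c * star c) = star c * (star (star w) * (star w * c)) := by
      rw [star_mul, star_star]; ring
    rw [h6, ← h3]
    simp
  have h7 : Tendsto (fun l => (‖S.ι (star w * S.UA (k • bb p β (φ l)) z)‖ ^ 2 : ℝ)) atTop
      (𝓝 ((‖S.ι w‖ * ‖S.ι z‖) ^ 2)) := by
    have h8 := (Complex.continuous_re.tendsto _).comp h1
    have h9 : (conj ((‖S.ι w‖ ^ 2 : ℝ) : ℂ) * ((‖S.ι z‖ ^ 2 : ℝ) : ℂ)).re
        = (‖S.ι w‖ * ‖S.ι z‖) ^ 2 := by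
      rw [Complex.conj_ofReal, ← Complex.ofReal_mul, Complex.ofReal_re]; ring
    rw [h9] at h8
    refine h8.congr fun l => ?_
    simp only [Function.comp_apply]
    rw [← h2 l, Complex.ofReal_re]
  have h10 := (Real.continuous_sqrt.tendsto _).comp h7
  rw [Real.sqrt_sq (by positivity)] at h10
  refine h10.congr fun l => ?_
  simp only [Function.comp_apply]
  rw [Real.sqrt_sq (norm_nonneg _)]

/-- `⟨(a * b), c⟩ = ⟨b, star a * c⟩`, norm version -/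
lemma norm_inner_mul_le (a c : A) (w : A) :
    ‖⟪S.ι (a * w), S.ι c⟫_ℂ‖ ≤ ‖S.ι a‖ * ‖S.ι (star w * c)‖ := by
  rw [mul_comm a w, S.inner_mul]
  exact norm_inner_le_norm _ _

/-- the main comparison -/
lemma star_ineq (hhh : T_hh) (hbb : T_bblim) (hBd : T_Bd) (p : ℕ) [Fact p.Prime]
    (ρ : Λ →+* ZMod p) (β : ℕ → Λ) (k : Λ) (f : A) (φ : ℕ → ℕ) (hβ : Exh ρ β) (hk : IsUnit k)
    (hφ : StrictMono φ) (z w : A) (hz : S.ι z ∈ S.HB ∅) (hw : S.ι w ∈ S.HB ∅)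
    (F : ℕ → A) (hF : ∀ l, S.ι (F l) =
      S.PR (W p (φ l)) (S.ι (S.UA (k • bb p β (φ l)) f * star f)))
    (ε : ℝ) (hε : 0 ≤ ε) (N : ℕ) (v : Fin N → A)
    (hv : ∀ n, S.ι (v n) ∈ S.HB ∅ ∧ S.Bd 1 (v n)) (l0 : ℕ) (hl0 : ∀ l ≥ l0,
      ‖(1 / (N : ℂ)) • ∑ n, S.ι (S.UA (k • bb p β (φ l)) (v n) * star (v n))
        - S.PR (W p (φ l)) (S.ι (S.UA (k • bb p β (φ l)) f * star f))‖ ≤ ε)
    (δ : ℝ) (hδ : 0 < δ) :
    ∃ l1, ∀ l ≥ l1, ‖⟪S.ι (F l * w), S.ι (S.UA (k • bb p β (φ l)) z)⟫_ℂ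
      - ⟪S.ι w, KN (fun n => S.ι (v n)) (S.ι z)⟫_ℂ‖ ≤ ε * (‖S.ι w‖ * ‖S.ι z‖) + δ := by
  obtain ⟨htr, -, -, -, -, -, -, -, -, -, -, -, -, hmul, hstar, -⟩ := id hBd Λ A H S
  set E : ℕ → A := fun l => (1 / (N : ℂ)) •
    ∑ n, (S.UA (k • bb p β (φ l)) (v n) * star (v n)) with hE
  -- the limit of the main term
  have hmain : Tendsto (fun l => ⟪S.ι (E l * w), S.ι (S.UA (k • bb p β (φ l)) z)⟫_ℂ) atTop
      (𝓝 ⟪S.ι w, KN (fun n => S.ι (v n)) (S.ι z)⟫_ℂ) := by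
    have h1 : ∀ l, ⟪S.ι (E l * w), S.ι (S.UA (k • bb p β (φ l)) z)⟫_ℂ
        = (1 / (N : ℂ)) * ∑ n, ⟪S.ι (star (v n) * w),
            S.U (k • bb p β (φ l)) (S.ι (star (v n) * z))⟫_ℂ := by
      intro l
      rw [hE]
      simp only [smul_mul_assoc, Finset.sum_mul, map_smul, map_sum]
      rw [inner_smul_left, sum_inner]
      congr 1
      · simp
      · refine Finset.sum_congr rfl fun n _ => ?_
        rw [mul_assoc, S.inner_mul, ← S.ι_U, map_mul (S.UA (k • bb p β (φ l))),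
          map_star (S.UA (k • bb p β (φ l)))]
    have h2 : ⟪S.ι w, KN (fun n => S.ι (v n)) (S.ι z)⟫_ℂ
        = (1 / (N : ℂ)) * ∑ n, conj ⟪S.ι 1, S.ι (star (v n) * w)⟫_ℂ
            * ⟪S.ι 1, S.ι (star (v n) * z)⟫_ℂ := by
      rw [KN_apply, inner_smul_right, inner_sum]
      congr 1
      refine Finset.sum_congr rfl fun n _ => ?_
      have h3 := htr (v n) w
      have h4 := htr (v n) z
      rw [Sys.tr] at h3 h4
      rw [h3, h4, inner_smul_right, inner_conj_symm]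
      ring
    rw [h2]
    refine Tendsto.congr (fun l => (h1 l).symm) ?_
    refine Tendsto.const_mul _ (tendsto_finsetSum _ fun n _ => ?_)
    exact bb_tendsto S hhh hbb hBd p ρ β k φ hβ hk hφ _ _
      (hmul _ _ _ (hstar _ _ (hv n).1) hz) (hmul _ _ _ (hstar _ _ (hv n).1) hw)
  have hnorm := norm_tendsto S hhh hbb hBd p ρ β k φ hβ hk hφ z w hz hw
  rw [Metric.tendsto_atTop] at hmain hnorm
  obtain ⟨l2, hl2⟩ := hmain (δ / 2) (by positivity)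
  obtain ⟨l3, hl3⟩ := hnorm (δ / (2 * (ε + 1))) (by positivity)
  refine ⟨max l0 (max l2 l3), fun l hl => ?_⟩
  have hla : l0 ≤ l := le_trans (le_max_left _ _) hl
  have hlb : l2 ≤ l := le_trans (le_trans (le_max_left _ _) (le_max_right _ _)) hl
  have hlc : l3 ≤ l := le_trans (le_trans (le_max_right _ _) (le_max_right _ _)) hl
  have e1 := hl2 l hlb
  have e2 := hl3 l hlc
  have e3 := hl0 l hla
  rw [dist_eq_norm] at e1
  rw [Real.dist_eq] at e2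
  have e4 : ‖S.ι (E l - F l)‖ ≤ ε := by
    have : S.ι (E l - F l) = (1 / (N : ℂ)) • ∑ n, S.ι (S.UA (k • bb p β (φ l)) (v n) * star (v n))
        - S.PR (W p (φ l)) (S.ι (S.UA (k • bb p β (φ l)) f * star f)) := by
      rw [map_sub, hF l, hE]
      simp only [map_smul, map_sum]
    rw [this]; exact e3
  have e5 : ‖⟪S.ι ((E l - F l) * w), S.ι (S.UA (k • bb p β (φ l)) z)⟫_ℂ‖
      ≤ ε * (‖S.ι w‖ * ‖S.ι z‖ + δ / (2 * (ε + 1))) := by
    refine (norm_inner_mul_le S _ _ _).trans ?_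
    have : ‖S.ι (star w * S.UA (k • bb p β (φ l)) z)‖ ≤ ‖S.ι w‖ * ‖S.ι z‖ + δ / (2 * (ε + 1)) := by
      have := abs_lt.mp e2
      linarith [this.2]
    exact mul_le_mul e4 this (norm_nonneg _) hε
  have e6 : ε * (δ / (2 * (ε + 1))) ≤ δ / 2 := by
    rw [mul_div_assoc', div_le_div_iff₀ (by positivity) (by positivity)]
    nlinarith
  have e7 : ⟪S.ι (F l * w), S.ι (S.UA (k • bb p β (φ l)) z)⟫_ℂ
      = ⟪S.ι (E l * w), S.ι (S.UA (k • bb p β (φ l)) z)⟫_ℂ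
        - ⟪S.ι ((E l - F l) * w), S.ι (S.UA (k • bb p β (φ l)) z)⟫_ℂ := by
    rw [sub_mul, map_sub, inner_sub_left]; ring
  rw [e7]
  calc _ = ‖(⟪S.ι (E l * w), S.ι (S.UA (k • bb p β (φ l)) z)⟫_ℂ
      - ⟪S.ι w, KN (fun n => S.ι (v n)) (S.ι z)⟫_ℂ)
      - ⟪S.ι ((E l - F l) * w), S.ι (S.UA (k • bb p β (φ l)) z)⟫_ℂ‖ := by ring_nf
    _ ≤ _ := norm_sub_le _ _
    _ ≤ δ / 2 + ε * (‖S.ι w‖ * ‖S.ι z‖ + δ / (2 * (ε + 1))) := add_le_add e1.le e5
    _ ≤ _ := by rw [mul_add]; linarith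

/-- a bound for `⟨w, T z⟩` on a dense set of the base gives a norm bound -/
lemma norm_le_of_dense (hcond : T_cond) (T : H →L[ℂ] H) (c : ℝ) (hc : 0 ≤ c)
    (hT1 : ∀ z, T z ∈ S.HB ∅) (hT2 : ∀ z, T (S.PH ∅ z) = T z)
    (h : ∀ z w : A, S.ι z ∈ S.HB ∅ → S.ι w ∈ S.HB ∅ →
      ‖⟪S.ι w, T (S.ι z)⟫_ℂ‖ ≤ c * (‖S.ι w‖ * ‖S.ι z‖)) : ‖T‖ ≤ c := by
  obtain ⟨-, -, -, -, -, -, hdens⟩ := hcond Λ A H S ∅
  set D : Set H := {x | ∃ a : A, S.ι a ∈ S.HB ∅ ∧ S.ι a = x} with hD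
  have hcl : ∀ x ∈ S.HB ∅, x ∈ closure D := by
    intro x hx
    rw [Metric.mem_closure_iff]
    intro ε hε
    obtain ⟨a, ha, ha'⟩ := hdens x (ε / 2) hx (by positivity)
    refine ⟨S.ι a, ⟨a, ha, rfl⟩, ?_⟩
    rw [dist_eq_norm]
    linarith
  have h1 : ∀ w ∈ S.HB ∅, ∀ z ∈ S.HB ∅, ‖⟪w, T z⟫_ℂ‖ ≤ c * (‖w‖ * ‖z‖) := by
    intro w hw z hz
    have h2 : (w, z) ∈ closure (D ×ˢ D) := by
      rw [closure_prod_eq]
      exact ⟨hcl w hw, hcl z hz⟩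
    have h3 : IsClosed {q : H × H | ‖⟪q.1, T q.2⟫_ℂ‖ ≤ c * (‖q.1‖ * ‖q.2‖)} := by
      refine isClosed_le ?_ ?_
      · exact (continuous_fst.inner (T.continuous.comp continuous_snd)).norm
      · exact continuous_const.mul (continuous_fst.norm.mul continuous_snd.norm)
    have h4 : D ×ˢ D ⊆ {q : H × H | ‖⟪q.1, T q.2⟫_ℂ‖ ≤ c * (‖q.1‖ * ‖q.2‖)} := by
      rintro ⟨x, y⟩ ⟨⟨a, ha, rfl⟩, ⟨b, hb, rfl⟩⟩
      exact h b a hb ha
    exact closure_minimal h4 h3 h2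
  refine ContinuousLinearMap.opNorm_le_bound _ hc fun z => ?_
  by_cases h0 : T z = 0
  · rw [h0, norm_zero]; positivity
  have h5 := h1 (T z) (hT1 z) (S.PH ∅ z) (PH_mem _ _ _)
  rw [hT2, inner_self_eq_norm_sq_to_K] at h5
  have h6' : ‖(((‖T z‖ : ℝ) : ℂ)) ^ 2‖ = ‖T z‖ * ‖T z‖ := by
    rw [norm_pow]; simp [sq]
  have h7 : ‖T z‖ * ‖T z‖ ≤ c * (‖T z‖ * ‖z‖) := by
    refine le_trans ?_ (h5.trans ?_)
    · exact h6'.ge
    · exact mul_le_mul_of_nonneg_left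
        (mul_le_mul_of_nonneg_left (norm_PH_le _ _ _) (norm_nonneg _)) hc
  have h8 : 0 < ‖T z‖ := norm_pos_iff.mpr h0
  nlinarith

/-- the compact operator `K` -/
theorem k1 (hhh : T_hh) (hbb : T_bblim) (hBd : T_Bd) (hcond : T_cond) : T_K1 := by
  intro Λ _ A _ _ _ _ H _ _ _ S p _ ρ β k f φ hβ hk hf hf1 hφ hFA
  obtain ⟨htr, -, hex, hle, -, -, hadd, hmono, hsmul, -⟩ := id hBd Λ A H S
  -- the approximants
  have hpos : ∀ j : ℕ, (0 : ℝ) < 1 / ((j : ℝ) + 1) := fun j => by positivity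
  choose N hN v hv l0 hl0 using fun j : ℕ => hFA (1 / ((j : ℝ) + 1)) (hpos j)
  set K : ℕ → H →L[ℂ] H := fun j => KN (fun n => S.ι (v j n)) with hK
  -- a choice of `F`
  have hFex : ∃ F : ℕ → A, ∀ l, S.ι (F l) =
      S.PR (W p (φ l)) (S.ι (S.UA (k • bb p β (φ l)) f * star f)) := by
    have : ∀ l, ∃ a : A, S.ι a =
        S.PR (W p (φ l)) (S.ι (S.UA (k • bb p β (φ l)) f * star f)) := by
      intro l
      obtain ⟨C, hC⟩ := hex (S.UA (k • bb p β (φ l)) f * star f)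
      obtain ⟨a, ha, -⟩ := (hcond Λ A H S (W p (φ l))).2.1 C _ hC
      exact ⟨a, ha⟩
    choose F hF using this
    exact ⟨F, hF⟩
  obtain ⟨F, hF⟩ := hFex
  have hstar := fun (F' : ℕ → A) hF' (j : ℕ) (z w : A) hz hw (δ : ℝ) hδ =>
    star_ineq S hhh hbb hBd p ρ β k f φ hβ hk hφ z w hz hw F' hF' (1 / ((j : ℝ) + 1))
      (hpos j).le (N j) (v j) (hv j) (l0 j) (hl0 j) δ hδ
  -- properties of `K j`
  have hKbase : ∀ j z, K j z ∈ S.HB ∅ := by
    intro j z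
    rw [hK]
    simp only [KN_apply]
    exact Submodule.smul_mem _ _ (Submodule.sum_mem _ fun n _ =>
      Submodule.smul_mem _ _ (hv j n).1)
  have hKPH : ∀ j z, K j (S.PH ∅ z) = K j z := by
    intro j z
    rw [hK]
    simp only [KN_apply]
    congr 1
    refine Finset.sum_congr rfl fun n _ => ?_
    rw [← inner_PH, PH_eq_self _ _ (hv j n).1]
  have hKbdd : ∀ j z, ∃ a : A, S.ι a = K j z ∧ S.Bd ‖z‖ a := by
    intro j z
    refine ⟨(1 / (N j : ℂ)) • ∑ n, ⟪S.ι (v j n), z⟫_ℂ • v j n, ?_, norm_nonneg _, fun b => ?_⟩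
    · rw [hK]; simp only [KN_apply, map_smul, map_sum]
    · rw [smul_mul_assoc, map_smul, Finset.sum_mul, map_sum, norm_smul]
      have h1 : ‖∑ n, S.ι (⟪S.ι (v j n), z⟫_ℂ • v j n * b)‖ ≤ (N j : ℝ) * (‖z‖ * ‖S.ι b‖) := by
        refine (norm_sum_le _ _).trans ?_
        have : ∀ n ∈ (Finset.univ : Finset (Fin (N j))),
            ‖S.ι (⟪S.ι (v j n), z⟫_ℂ • v j n * b)‖ ≤ ‖z‖ * ‖S.ι b‖ := by
          intro n _
          rw [smul_mul_assoc, map_smul, norm_smul]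
          have h2 : ‖⟪S.ι (v j n), z⟫_ℂ‖ ≤ ‖z‖ := by
            refine (norm_inner_le_norm _ _).trans ?_
            have := hle 1 _ (hv j n).2
            nlinarith [norm_nonneg z]
          have h3 : ‖S.ι (v j n * b)‖ ≤ ‖S.ι b‖ := by
            have := (hv j n).2.2 b
            linarith
          exact mul_le_mul h2 h3 (norm_nonneg _) (norm_nonneg _)
        refine (Finset.sum_le_sum this).trans ?_
        simp
      have h4 : (0 : ℝ) < N j := by exact_mod_cast hN j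
      have h5 : ‖(1 / (N j : ℂ))‖ = 1 / (N j : ℝ) := by simp
      rw [h5]
      calc 1 / (N j : ℝ) * _ ≤ 1 / (N j : ℝ) * ((N j : ℝ) * (‖z‖ * ‖S.ι b‖)) :=
            mul_le_mul_of_nonneg_left h1 (by positivity)
        _ = ‖z‖ * ‖S.ι b‖ := by field_simp
  -- Cauchy
  have hdiff : ∀ i j, ‖K i - K j‖ ≤ 1 / ((i : ℝ) + 1) + 1 / ((j : ℝ) + 1) := by
    intro i j
    refine norm_le_of_dense S hcond _ _ (by have := hpos i; have := hpos j; linarith) ?_ ?_ ?_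
    · intro z
      exact Submodule.sub_mem _ (hKbase i z) (hKbase j z)
    · intro z
      simp only [_root_.sub_apply, hKPH]
    · intro z w hz hw
      refine le_of_forall_pos_le_add fun δ hδ => ?_
      obtain ⟨a1, ha1⟩ := hstar F hF i z w hz hw (δ / 2) (by positivity)
      obtain ⟨a2, ha2⟩ := hstar F hF j z w hz hw (δ / 2) (by positivity)
      have b1 := ha1 (max a1 a2) (le_max_left _ _)
      have b2 := ha2 (max a1 a2) (le_max_right _ _)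
      rw [_root_.sub_apply, inner_sub_right]
      have b3 : ⟪S.ι w, K i (S.ι z)⟫_ℂ - ⟪S.ι w, K j (S.ι z)⟫_ℂ
          = (⟪S.ι (F (max a1 a2) * w), S.ι (S.UA (k • bb p β (φ (max a1 a2))) z)⟫_ℂ
              - ⟪S.ι w, K j (S.ι z)⟫_ℂ)
            - (⟪S.ι (F (max a1 a2) * w), S.ι (S.UA (k • bb p β (φ (max a1 a2))) z)⟫_ℂ
              - ⟪S.ι w, K i (S.ι z)⟫_ℂ) := by ring
      rw [b3]
      refine (norm_sub_le _ _).trans ?_
      have := add_le_add b2 b1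
      refine this.trans (le_of_eq ?_)
      ring
  have hcau : CauchySeq K := by
    rw [Metric.cauchySeq_iff']
    intro ε hε
    obtain ⟨n, hn⟩ := exists_nat_one_div_lt (half_pos hε)
    refine ⟨n, fun m hm => ?_⟩
    rw [dist_eq_norm]
    have h1 := hdiff m n
    have h2 : 1 / ((m : ℝ) + 1) ≤ 1 / ((n : ℝ) + 1) := by
      apply one_div_le_one_div_of_le (by positivity)
      have : (n : ℝ) ≤ m := by exact_mod_cast hm
      linarith
    linarith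
  obtain ⟨K0, hK0⟩ := cauchySeq_tendsto_of_complete hcau
  have hK0z : ∀ z, Tendsto (fun j => K j z) atTop (𝓝 (K0 z)) := by
    intro z
    exact ((ContinuousLinearMap.apply ℂ H z).continuous.tendsto K0).comp hK0
  refine ⟨K0, ?_, ?_, ?_, ?_, ?_, ?_⟩
  · exact isCompactOperator_of_tendsto hK0 (Eventually.of_forall fun j => KN_compact _)
  · intro z w
    have h1 : Tendsto (fun j => ⟪K j z, w⟫_ℂ) atTop (𝓝 ⟪K0 z, w⟫_ℂ) :=
      (hK0z z).inner tendsto_const_nhds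
    have h2 : Tendsto (fun j => ⟪z, K j w⟫_ℂ) atTop (𝓝 ⟪z, K0 w⟫_ℂ) :=
      tendsto_const_nhds.inner (hK0z w)
    refine tendsto_nhds_unique h1 (h2.congr fun j => ?_)
    exact (KN_symm _ _ _).symm
  · intro z
    exact (S.isClosed_HB ∅).mem_of_tendsto (hK0z z) (Eventually.of_forall fun j => hKbase j z)
  · intro z
    exact tendsto_nhds_unique (hK0z _) ((hK0z z).congr fun j => (hKPH j z).symm)
  · intro z
    choose a ha ha' using fun j => hKbdd j z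
    have h1 : Tendsto (fun n => S.ι (a n)) atTop (𝓝 (K0 z)) :=
      (hK0z z).congr fun j => (ha j).symm
    obtain ⟨b, hb, hb'⟩ := S.bd_complete ‖z‖ a (fun n c => (ha' n).2 c) h1.cauchySeq
    exact ⟨b, tendsto_nhds_unique hb' h1, norm_nonneg _, hb⟩
  · intro z w hz hw F' hF'
    rw [Metric.tendsto_atTop]
    intro δ hδ
    obtain ⟨n1, hn1⟩ := exists_nat_one_div_lt
      (show (0 : ℝ) < δ / (4 * (‖S.ι w‖ * ‖S.ι z‖ + 1)) by positivity)
    have h1 : Tendsto (fun j => ⟪S.ι w, K j (S.ι z)⟫_ℂ) atTop (𝓝 ⟪S.ι w, K0 (S.ι z)⟫_ℂ) :=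
      tendsto_const_nhds.inner (hK0z _)
    rw [Metric.tendsto_atTop] at h1
    obtain ⟨n2, hn2⟩ := h1 (δ / 4) (by positivity)
    set j := max n1 n2 with hj
    obtain ⟨l1, hl1⟩ := hstar F' hF' j z w hz hw (δ / 4) (by positivity)
    refine ⟨l1, fun l hl => ?_⟩
    have e1 := hl1 l hl
    have e2 := hn2 j (le_max_right _ _)
    rw [dist_eq_norm] at e2 ⊢
    have e3 : 1 / ((j : ℝ) + 1) * (‖S.ι w‖ * ‖S.ι z‖) ≤ δ / 4 := by
      have e4 : 1 / ((j : ℝ) + 1) ≤ δ / (4 * (‖S.ι w‖ * ‖S.ι z‖ + 1)) := by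
        refine le_trans ?_ hn1.le
        apply one_div_le_one_div_of_le (by positivity)
        have : (n1 : ℝ) ≤ j := by exact_mod_cast le_max_left _ _
        linarith
      have e5 : 0 ≤ ‖S.ι w‖ * ‖S.ι z‖ := by positivity
      calc _ ≤ δ / (4 * (‖S.ι w‖ * ‖S.ι z‖ + 1)) * (‖S.ι w‖ * ‖S.ι z‖) :=
            mul_le_mul_of_nonneg_right e4 e5
        _ ≤ _ := by
            rw [div_mul_eq_mul_div, div_le_div_iff₀ (by positivity) (by positivity)]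
            nlinarith
    have e6 : ⟪S.ι (F' l * w), S.ι (S.UA (k • bb p β (φ l)) z)⟫_ℂ - ⟪S.ι w, K0 (S.ι z)⟫_ℂ
        = (⟪S.ι (F' l * w), S.ι (S.UA (k • bb p β (φ l)) z)⟫_ℂ - ⟪S.ι w, K j (S.ι z)⟫_ℂ)
          + (⟪S.ι w, K j (S.ι z)⟫_ℂ - ⟪S.ι w, K0 (S.ι z)⟫_ℂ) := by ring
    rw [e6]
    refine (norm_add_le _ _).trans_lt ?_
    have e7 := e1.trans (add_le_add_left e3 (δ / 4))
    have e8 : ‖⟪S.ι (F' l * w), S.ι (S.UA (k • bb p β (φ l)) z)⟫_ℂ - ⟪S.ι w, K j (S.ι z)⟫_ℂ‖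
        ≤ δ / 4 + δ / 4 := by
      refine e1.trans ?_
      linarith
    linarith

end Main

end Pool.Agent.H37.B
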